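import Pool.Agent.W25.UN.Final
import Pool.Agent.W436.DB.Five

/-!
# Binary equations in bounded-gap twin primes for every large `N`, without exceptional set

For every `m` and every large `N` one of the five equations `p + q = 2 N + c`, `2 p - q = N + c`,
`2 p + q = 3 N + c`, `4 p - q = 3 N + c`, `4 p + q = 5 N + c` with `|c| ≤ C` has at least
`N ^ (1 - η)` solutions in primes `p`, `q` both of which have `m` primes at distance at most `C` (for
`m = 2`: both `p` and `q` are twin primes with the gap `2` replaced by a bounded one).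

Proof: the coloured Maynard-Tao theorem uniform in `N` (`Pool.Agent.W25.UN.thmU`) for the forms
`N + a n + h`, `a = 1, -1, 2, -2, 4`, with `16 (m - 1) + 1` classes of shifts for each of the five slopes:
more than `20 (m - 1) + 1` of the `80 (m - 1) + 5` classes contain primes, hence two of the slopes have at
least `m` classes with primes.
-/

set_option autoImplicit false

namespace Pool.Agent.Results.MP_c6d112_nt.FiveTwinEquations

open Filter

/-- `p` is a prime and at least `m` primes, `p` itself counted, are at distance at most `C` from `p` -/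
def Near (m C p : ℕ) : Prop := p.Prime ∧ m ≤ {x : ℕ | x.Prime ∧ |(x : ℤ) - p| ≤ C}.ncard

theorem result (m : ℕ) (hm : 1 ≤ m) : ∃ C : ℕ, ∀ η : ℝ, 0 < η → ∀ᶠ N : ℕ in atTop,
    ∃ a ∈ ({(1, 1, 2), (2, -1, 1), (2, 1, 3), (4, -1, 3), (4, 1, 5)} : Set (ℤ × ℤ × ℤ)),
      ∃ c : ℤ, |c| ≤ C ∧ (N : ℝ) ^ (1 - η) ≤ ({p : ℕ | p ≤ 6 * N ∧ Near m C p ∧
        ∃ q : ℕ, Near m C q ∧ a.1 * (p : ℤ) + a.2.1 * (q : ℤ) = a.2.2 * (N : ℤ) + c}.ncard : ℝ) := by
  classical
  obtain ⟨C, hC⟩ := Pool.Agent.W436.DB5.main Pool.Agent.W25.UN.thmU m hm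
  refine ⟨C, fun η hη => ?_⟩
  filter_upwards [hC η hη] with N hN
  obtain ⟨a, ha, c, hc, h⟩ := hN
  refine ⟨a, by simpa using ha, c, hc, h.trans ?_⟩
  rw [← Set.ncard_coe_finset, Nat.cast_le]
  refine Set.ncard_le_ncard ?_ ((Set.finite_Iic (6 * N)).subset fun n hn => hn.1)
  intro p hp
  rw [Finset.coe_filter, Set.mem_ofPred_eq, Finset.mem_Icc] at hp
  exact ⟨hp.1.2, hp.2⟩

end Pool.Agent.Results.MP_c6d112_nt.FiveTwinEquations
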