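import Pool.Agent.W25.UB.FinalT
import Pool.Agent.W688.UB.KST
import Pool.Agent.W436.DB.Dich2

/-!
# Sums or differences of two bounded-gap twin primes

The conjecture asks that every even number beyond `4208` be a sum of two twin primes.  For every `m` we
prove, at EVERY large scale `N`, that either some number `2 N + c` with `|c| ≤ C` is a sum `p + q` in at
least `N ^ (1 - η)` ways, or all but `C₁ L ^ (1 - δ)` of the even numbers `2 k`, `u < k ≤ u + L`, are
differences `q - p` in at least `N ^ (1 - η)` ways, where in both cases `p` and `q` are primes which have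
`m` primes at distance at most `C` (for `m = 2`: twin primes with the gap `2` replaced by a bounded one).
Hence: either the even numbers that are sums of two such primes have bounded gaps, or in every interval
of length `L` all but `C₁ L ^ (1 - δ)` of the even numbers are differences of two such primes infinitely
often.

Proof: the coloured Maynard-Tao theorem uniform in `N` for the forms `N + n + h` and `N - n + h`
(`Pool.Agent.W25.UB.thmVG`: of `T > (4 - c) M` classes of forms at least `M + 1` contain primes), with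
`2 s` classes on each side, `s = M + 1 - m`: if one side has less than `m` classes with primes, then the
other one has more than `s` of them, so two classes of the two parts of a complete bipartite difference
graph (Kovari, Sos, Turan).
-/

set_option autoImplicit false

namespace Pool.Agent.Results.MP_c6d112_nt.NearTwinSumsOrPolignac

open Filter

/-- `p` is a prime and at least `m` primes, `p` itself counted, are at distance at most `C` from `p` -/
def Near (m C p : ℕ) : Prop := p.Prime ∧ m ≤ {x : ℕ | x.Prime ∧ |(x : ℤ) - p| ≤ C}.ncard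

theorem result (m : ℕ) (hm : 1 ≤ m) : ∃ δ C₁ : ℝ, 0 < δ ∧ 0 < C₁ ∧
    (∀ L u : ℕ, 1 ≤ L → ∃ C : ℕ, ∀ η : ℝ, 0 < η → ∀ᶠ N : ℕ in atTop,
      (∃ c : ℤ, |c| ≤ C ∧ (N : ℝ) ^ (1 - η) ≤ ({p : ℕ | p ≤ 3 * N ∧ Near m C p ∧
        ∃ q : ℕ, Near m C q ∧ (p : ℤ) + q = 2 * N + c}.ncard : ℝ)) ∨
      ({k : ℕ | u < k ∧ k ≤ u + L ∧
        ({p : ℕ | p ≤ 3 * N ∧ Near m C p ∧ Near m C (p + 2 * k)}.ncard : ℝ) <
          (N : ℝ) ^ (1 - η)}.ncard : ℝ) ≤ C₁ * (L : ℝ) ^ (1 - δ)) ∧
    ((∃ C : ℕ, ∀ η : ℝ, 0 < η → ∀ᶠ N : ℕ in atTop, ∃ c : ℤ, |c| ≤ C ∧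
      (N : ℝ) ^ (1 - η) ≤ ({p : ℕ | p ≤ 3 * N ∧ Near m C p ∧
        ∃ q : ℕ, Near m C q ∧ (p : ℤ) + q = 2 * N + c}.ncard : ℝ)) ∨
    ∀ L u : ℕ, 1 ≤ L → ∃ C : ℕ,
      ({k : ℕ | u < k ∧ k ≤ u + L ∧ ¬ ∀ η : ℝ, 0 < η → ∃ᶠ x : ℕ in atTop,
        (x : ℝ) ^ (1 - η) ≤
          ({p : ℕ | p ≤ x ∧ Near m C p ∧ Near m C (p + 2 * k)}.ncard : ℝ)}.ncard : ℝ) ≤
        C₁ * (L : ℝ) ^ (1 - δ)) := by
  obtain ⟨δ, C₁, hδ, hC₁, h⟩ := Pool.Agent.W436.DB2.scale_ncard2 Pool.Agent.W25.UB.thmVG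
    Pool.Agent.W688.UB.KST.main m hm
  exact ⟨δ, C₁, hδ, hC₁, h, Pool.Agent.W436.DB2.dich_gen2 (Pool.Agent.W436.DB.Rep m)
    (Pool.Agent.W436.DB2.Dif m) δ C₁ h⟩

end Pool.Agent.Results.MP_c6d112_nt.NearTwinSumsOrPolignac
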